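import Pool.Agent.Helper5.TL.Defs

/-! Mal'cev's theorem: a soluble linear group over an algebraically closed field has a
triangularizable subgroup of finite index. -/

namespace Pool.Agent.Helper3.TL

open Pool.Agent.Helper5.TL Module

universe u v w

section Chars

variable {k : Type u} [Field k] {M : Type w} [AddCommGroup M] [Module k M]
  [FiniteDimensional k M]

theorem finite_chars {ι : Type*} (f : ι → End k M) (h : ∀ i j, Commute (f i) (f j)) :
    {χ : ι → k | (⨅ i, (f i).eigenspace (χ i)) ≠ ⊥}.Finite := by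
  have h1 := Module.End.independent_iInf_maxGenEigenspace_of_forall_mapsTo f
    (fun i j φ => Module.End.mapsTo_maxGenEigenspace_of_comm (h j i) φ)
  have h2 := WellFoundedGT.finite_ne_bot_of_iSupIndep h1
  refine h2.subset ?_
  intro χ hχ h0
  apply hχ
  rw [eq_bot_iff] at h0 ⊢
  refine le_trans (iInf_mono fun i => ?_) h0
  exact ((f i).genEigenspace (χ i)).monotone le_top

theorem exists_char [IsAlgClosed k] [Nontrivial M] {ι : Type*} (f : ι → End k M)
    (h : ∀ i j, Commute (f i) (f j)) :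
    ∃ χ : ι → k, (⨅ i, (f i).eigenspace (χ i)) ≠ ⊥ := by
  obtain ⟨U, ⟨hU0, hUi⟩, hmin⟩ := (wellFounded_lt (α := Submodule k M)).has_min
    {U : Submodule k M | U ≠ ⊥ ∧ ∀ i, ∀ u ∈ U, f i u ∈ U} ⟨⊤, top_ne_bot, by simp⟩
  have key : ∀ i, ∃ μ : k, U ≤ (f i).eigenspace μ := by
    intro i
    have hnt : Nontrivial U := Submodule.nontrivial_iff_ne_bot.2 hU0
    obtain ⟨μ, hμ⟩ := Module.End.exists_eigenvalue ((f i).restrict (hUi i))
    obtain ⟨x, hx⟩ := hμ.exists_hasEigenvector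
    refine ⟨μ, ?_⟩
    have hlt := hmin (U ⊓ (f i).eigenspace μ) ⟨?_, ?_⟩
    · by_contra hc
      apply hlt
      refine lt_of_le_of_ne inf_le_left ?_
      intro he
      apply hc
      rw [← he]
      exact inf_le_right
    · intro h0
      have hx2 : (x : M) ∈ U ⊓ (f i).eigenspace μ := by
        refine ⟨x.2, ?_⟩
        rw [SetLike.mem_coe, Module.End.mem_eigenspace_iff]
        have := hx.apply_eq_smul
        have h3 := congrArg Subtype.val this
        simpa using h3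
      rw [h0, Submodule.mem_bot] at hx2
      exact hx.2 (Subtype.ext hx2)
    · intro j u hu
      refine ⟨hUi j u hu.1, ?_⟩
      have hu2 := hu.2
      rw [SetLike.mem_coe, Module.End.mem_eigenspace_iff] at hu2 ⊢
      have hc : f i (f j u) = f j (f i u) := by
        have := (h i j).eq
        exact congrArg (fun g : End k M => g u) this
      rw [hc, hu2, map_smul]
  choose χ hχ using key
  refine ⟨χ, fun h0 => hU0 ?_⟩
  rw [eq_bot_iff, ← h0]
  exact le_iInf hχ

theorem finite_eigenspaces (f : End k M) : (Set.range fun ν : k => f.eigenspace ν).Finite := by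
  refine Set.Finite.subset (((f.finite_hasEigenvalue).image fun ν => f.eigenspace ν).insert ⊥) ?_
  rintro _ ⟨ν, rfl⟩
  by_cases h : f.HasEigenvalue ν
  · exact Set.mem_insert_of_mem _ ⟨ν, h, rfl⟩
  · refine Or.inl ?_
    rw [Module.End.hasEigenvalue_iff, not_not] at h
    exact h

end Chars

section Rep

variable {k : Type u} [Field k] {G : Type v} [Group G] {V : Type w} [AddCommGroup V] [Module k V]

/-- action on subspaces -/
@[instance_reducible] def subAct (ρ : G →* End k V) : MulAction G (Submodule k V) where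
  smul g W := W.map (ρ g)
  one_smul W := by
    change W.map (ρ 1) = W
    rw [map_one]
    exact Submodule.map_id W
  mul_smul g h W := by
    change W.map (ρ (g * h)) = (W.map (ρ h)).map (ρ g)
    rw [map_mul, ← Submodule.map_comp]
    rfl

theorem exists_of_orbit_finite (ρ : G →* End k V) (W : Submodule k V)
    (hfin : (Set.range fun g => W.map (ρ g)).Finite) :
    ∃ H : Subgroup G, H.FiniteIndex ∧ ∀ h ∈ H, ∀ w ∈ W, ρ h w ∈ W := by
  let _ := subAct ρ
  refine ⟨MulAction.stabilizer G W, ⟨?_⟩, ?_⟩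
  · rw [MulAction.index_stabilizer]
    exact Set.ncard_ne_zero_of_mem (MulAction.mem_orbit_self W) hfin
  · intro h hh w hw
    have h1 : W.map (ρ h) = W := hh
    rw [← h1]
    exact Submodule.mem_map_of_mem hw

theorem rho_inv (ρ : G →* End k V) (g : G) (v : V) : ρ g (ρ g⁻¹ v) = v := by
  have : ρ g * ρ g⁻¹ = 1 := by rw [← map_mul, mul_inv_cancel, map_one]
  exact congrArg (fun f : End k V => f v) this

theorem rho_inv' (ρ : G →* End k V) (g : G) (v : V) : ρ g⁻¹ (ρ g v) = v := by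
  have : ρ g⁻¹ * ρ g = 1 := by rw [← map_mul, inv_mul_cancel, map_one]
  exact congrArg (fun f : End k V => f v) this

theorem rho_mul (ρ : G →* End k V) (g h : G) (v : V) : ρ (g * h) v = ρ g (ρ h v) := by
  rw [map_mul]; rfl

theorem map_ne_bot (ρ : G →* End k V) (g : G) {W : Submodule k V} (hW : W ≠ ⊥) :
    W.map (ρ g) ≠ ⊥ := by
  intro h
  apply hW
  rw [Submodule.eq_bot_iff]
  intro x hx
  have : ρ g x ∈ W.map (ρ g) := Submodule.mem_map_of_mem hx
  rw [h, Submodule.mem_bot] at this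
  rw [← rho_inv' ρ g x, this, map_zero]

/-- scalar endomorphisms -/
def IsSc (f : End k V) : Prop := ∃ c : k, f = c • 1

theorem case1 [IsAlgClosed k] [FiniteDimensional k V] [Nontrivial V] (ρ : G →* End k V)
    (A : Subgroup G) (hA : A.Normal) (hcomm : ∀ a ∈ A, ∀ b ∈ A, Commute (ρ a) (ρ b))
    (hns : ∃ b ∈ A, ¬ IsSc (ρ b)) :
    ∃ (H : Subgroup G) (W : Submodule k V), H.FiniteIndex ∧ (∀ h ∈ H, ∀ w ∈ W, ρ h w ∈ W) ∧
      W ≠ ⊥ ∧ W ≠ ⊤ := by
  let f : A → End k V := fun a => ρ a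
  have hf : ∀ i j, Commute (f i) (f j) := fun i j => hcomm _ i.2 _ j.2
  obtain ⟨χ, hχ⟩ := exists_char f hf
  have hS := finite_chars f hf
  have hmem : ∀ (χ : A → k) (x : V), x ∈ (⨅ i, (f i).eigenspace (χ i)) ↔
      ∀ a : A, ρ a x = χ a • x := by
    intro χ x
    rw [Submodule.mem_iInf]
    exact forall_congr' fun a => Module.End.mem_eigenspace_iff
  have hmap : ∀ g : G, (⨅ i, (f i).eigenspace (χ i)).map (ρ g) =
      ⨅ i, (f i).eigenspace ((fun a : A => χ ⟨g⁻¹ * a * g,
        by simpa using hA.conj_mem a a.2 g⁻¹⟩) i) := by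
    intro g
    ext x
    rw [hmem]
    constructor
    · rintro ⟨v, hv, rfl⟩ a
      rw [SetLike.mem_coe, hmem] at hv
      have h1 := hv ⟨g⁻¹ * a * g, by simpa using hA.conj_mem a a.2 g⁻¹⟩
      have h2 : ρ (g * (g⁻¹ * a * g)) v = ρ (a * g) v := by congr 2; group
      rw [← rho_mul, ← h2, rho_mul, h1, map_smul]
    · intro hx
      refine ⟨ρ g⁻¹ x, ?_, rho_inv ρ g x⟩
      rw [SetLike.mem_coe, hmem]
      intro a
      have h1 := hx ⟨g * a * g⁻¹, hA.conj_mem a a.2 g⟩
      have h2 : ρ (g⁻¹ * (g * a * g⁻¹)) x = ρ (a * g⁻¹) x := by congr 2; group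
      rw [← rho_mul, ← h2, rho_mul, h1, map_smul]
      congr 2
      apply Subtype.ext
      simp only
      group
  obtain ⟨H, hH, hHW⟩ := exists_of_orbit_finite ρ (⨅ i, (f i).eigenspace (χ i)) (by
    refine (hS.image fun χ => ⨅ i, (f i).eigenspace (χ i)).subset ?_
    rintro _ ⟨g, rfl⟩
    refine ⟨_, ?_, (hmap g).symm⟩
    rw [Set.mem_ofPred_eq, ← hmap g]
    exact map_ne_bot ρ g hχ)
  refine ⟨H, _, hH, hHW, hχ, ?_⟩
  intro htop
  obtain ⟨b, hb, hns⟩ := hns
  apply hns
  refine ⟨χ ⟨b, hb⟩, ?_⟩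
  ext x
  have : x ∈ (⨅ i, (f i).eigenspace (χ i)) := by rw [htop]; trivial
  exact (hmem χ x).1 this ⟨b, hb⟩

theorem IsSc.comm {f : End k V} (h : IsSc f) (X : End k V) : f * X = X * f := by
  obtain ⟨c, rfl⟩ := h
  simp

theorem case2 [IsAlgClosed k] [FiniteDimensional k V] [Nontrivial V] (ρ : G →* End k V)
    (hno : ∀ A : Subgroup G, A.Normal → (∀ a ∈ A, ∀ b ∈ A, Commute (ρ a) (ρ b)) →
      ∀ a ∈ A, IsSc (ρ a))
    (B : Subgroup G) (hBn : B.Normal) (hB : ∀ a ∈ B, ∀ b ∈ B, IsSc (ρ (a * b * a⁻¹ * b⁻¹)))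
    (b : G) (hb : b ∈ B) (hbs : ¬ IsSc (ρ b)) :
    ∃ (H : Subgroup G) (W : Submodule k V), H.FiniteIndex ∧ (∀ h ∈ H, ∀ w ∈ W, ρ h w ∈ W) ∧
      W ≠ ⊥ ∧ W ≠ ⊤ := by
  classical
  -- the conjugation operators
  let Ad : B → End k (End k V) := fun a =>
    (LinearMap.mulLeft k (ρ a)) * (LinearMap.mulRight k (ρ (a : G)⁻¹))
  have hAd : ∀ (a : B) (X : End k V), Ad a X = ρ a * X * ρ (a : G)⁻¹ := by
    intro a X
    simp [Ad, mul_assoc]
  have hcomm : ∀ i j, Commute (Ad i) (Ad j) := by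
    intro a b
    refine LinearMap.ext fun X => ?_
    change Ad a (Ad b X) = Ad b (Ad a X)
    rw [hAd, hAd, hAd, hAd]
    have hc := hB a a.2 b b.2
    have e1 : ρ a * (ρ b * X * ρ (b : G)⁻¹) * ρ (a : G)⁻¹ =
        ρ (a * b * (a : G)⁻¹ * (b : G)⁻¹) * (ρ b * (ρ a * X * ρ (a : G)⁻¹) * ρ (b : G)⁻¹) *
          ρ (a * b * (a : G)⁻¹ * (b : G)⁻¹)⁻¹ := by
      have e2 : ρ a * ρ b = ρ (a * b * (a : G)⁻¹ * (b : G)⁻¹) * ρ b * ρ a := by
        rw [← map_mul, ← map_mul, ← map_mul]; congr 1; group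
      have e3 : ρ (b : G)⁻¹ * ρ (a : G)⁻¹ =
          ρ (a : G)⁻¹ * ρ (b : G)⁻¹ * ρ (a * b * (a : G)⁻¹ * (b : G)⁻¹)⁻¹ := by
        rw [← map_mul, ← map_mul, ← map_mul]; congr 1; group
      calc ρ a * (ρ b * X * ρ (b : G)⁻¹) * ρ (a : G)⁻¹
          = (ρ a * ρ b) * X * (ρ (b : G)⁻¹ * ρ (a : G)⁻¹) := by simp only [mul_assoc]
        _ = _ := by rw [e2, e3]; simp only [mul_assoc]
    rw [e1, hc.comm, mul_assoc, ← map_mul, mul_inv_cancel, map_one, mul_one]
  have hS := finite_chars Ad hcomm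
  -- the character of an element of `B`
  have hex : ∀ b : B, ∃ χ : B → k, ∀ a : B, ρ (a * b * (a : G)⁻¹ * (b : G)⁻¹) = χ a • 1 := by
    intro b
    choose χ hχ using fun a : B => hB a a.2 b b.2
    exact ⟨χ, hχ⟩
  choose X hX using hex
  have hone : (1 : End k V) ≠ 0 := one_ne_zero
  have hX0 : ∀ b a, X b a ≠ 0 := by
    intro b a h0
    have h1 := hX b a
    rw [h0, zero_smul] at h1
    have h2 : ρ (a * b * (a : G)⁻¹ * (b : G)⁻¹) * ρ (a * b * (a : G)⁻¹ * (b : G)⁻¹)⁻¹ = 1 := by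
      rw [← map_mul, mul_inv_cancel, map_one]
    rw [h1, zero_mul] at h2
    exact hone h2.symm
  have hρ0 : ∀ g, ρ g ≠ 0 := by
    intro g h0
    have h2 : ρ g * ρ g⁻¹ = 1 := by rw [← map_mul, mul_inv_cancel, map_one]
    rw [h0, zero_mul] at h2
    exact hone h2.symm
  have hab : ∀ a b : B, ρ a * ρ b = X b a • (ρ b * ρ a) := by
    intro a b
    have e2 : ρ a * ρ b = ρ (a * b * (a : G)⁻¹ * (b : G)⁻¹) * (ρ b * ρ a) := by
      rw [← map_mul, ← map_mul, ← map_mul]; congr 1; group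
    rw [e2, hX, smul_mul_assoc, one_mul]
  have hXS : ∀ b : B, X b ∈ {χ : B → k | (⨅ i, (Ad i).eigenspace (χ i)) ≠ ⊥} := by
    intro b h0
    have : ρ b ∈ (⨅ i, (Ad i).eigenspace (X b i)) := by
      rw [Submodule.mem_iInf]
      intro a
      rw [Module.End.mem_eigenspace_iff, hAd, hab, smul_mul_assoc, mul_assoc, ← map_mul,
        mul_inv_cancel, map_one, mul_one]
    rw [h0, Submodule.mem_bot] at this
    exact hρ0 _ this
  -- equal characters
  have hker : ∀ b b' : B, X b = X b' → IsSc (ρ ((b : G)⁻¹ * b')) := by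
    let C : Subgroup G :=
      { carrier := {c | c ∈ B ∧ ∀ a ∈ B, ρ a * ρ c = ρ c * ρ a}
        one_mem' := ⟨B.one_mem, fun a _ => by simp⟩
        mul_mem' := by
          rintro c c' ⟨h1, h2⟩ ⟨h3, h4⟩
          refine ⟨B.mul_mem h1 h3, fun a ha => ?_⟩
          rw [map_mul, ← mul_assoc, h2 a ha, mul_assoc, h4 a ha, mul_assoc]
        inv_mem' := by
          rintro c ⟨h1, h2⟩
          refine ⟨B.inv_mem h1, fun a ha => ?_⟩
          have h3 : ρ c⁻¹ * ρ c = 1 := by rw [← map_mul, inv_mul_cancel, map_one]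
          have h4 : ρ c * ρ c⁻¹ = 1 := by rw [← map_mul, mul_inv_cancel, map_one]
          calc ρ a * ρ c⁻¹ = (ρ c⁻¹ * ρ c) * (ρ a * ρ c⁻¹) := by rw [h3, one_mul]
            _ = ρ c⁻¹ * (ρ c * ρ a) * ρ c⁻¹ := by simp only [mul_assoc]
            _ = ρ c⁻¹ * (ρ a * ρ c) * ρ c⁻¹ := by rw [h2 a ha]
            _ = ρ c⁻¹ * ρ a * (ρ c * ρ c⁻¹) := by simp only [mul_assoc]
            _ = ρ c⁻¹ * ρ a := by rw [h4, mul_one] }
    have hCn : C.Normal := by
      constructor
      rintro c ⟨h1, h2⟩ g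
      refine ⟨hBn.conj_mem c h1 g, fun a ha => ?_⟩
      have h3 := h2 (g⁻¹ * a * g) (by simpa using hBn.conj_mem a ha g⁻¹)
      have e1 : ρ a * ρ (g * c * g⁻¹) = ρ g * (ρ (g⁻¹ * a * g) * ρ c) * ρ g⁻¹ := by
        simp only [← map_mul]; congr 1; group
      have e2 : ρ (g * c * g⁻¹) * ρ a = ρ g * (ρ c * ρ (g⁻¹ * a * g)) * ρ g⁻¹ := by
        simp only [← map_mul]; congr 1; group
      rw [e1, e2, h3]
    have hCc : ∀ a ∈ C, ∀ b ∈ C, Commute (ρ a) (ρ b) := fun a ha b hb => hb.2 a ha.1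
    intro b b' hbb
    apply hno C hCn hCc
    refine ⟨B.mul_mem (B.inv_mem b.2) b'.2, fun a ha => ?_⟩
    have h1 := hab ⟨a, ha⟩ b
    have h2 := hab ⟨a, ha⟩ b'
    simp only at h1 h2
    have h3 : ρ (b : G)⁻¹ * ρ b = 1 := by rw [← map_mul, inv_mul_cancel, map_one]
    have e1 : ρ b * ρ ((b : G)⁻¹ * b') = ρ b' := by rw [← map_mul]; congr 1; group
    have e2 : X b ⟨a, ha⟩ • (ρ b * (ρ a * ρ ((b : G)⁻¹ * b'))) =
        X b ⟨a, ha⟩ • (ρ b * (ρ ((b : G)⁻¹ * b') * ρ a)) := by
      calc X b ⟨a, ha⟩ • (ρ b * (ρ a * ρ ((b : G)⁻¹ * b')))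
          = (X b ⟨a, ha⟩ • (ρ b * ρ a)) * ρ ((b : G)⁻¹ * b') := by
            rw [smul_mul_assoc, mul_assoc]
        _ = ρ a * ρ b * ρ ((b : G)⁻¹ * b') := by rw [← h1]
        _ = ρ a * ρ b' := by rw [mul_assoc, e1]
        _ = X b' ⟨a, ha⟩ • (ρ b' * ρ a) := h2
        _ = X b ⟨a, ha⟩ • (ρ b * ρ ((b : G)⁻¹ * b') * ρ a) := by rw [hbb, e1]
        _ = _ := by rw [mul_assoc]
    have e3 := smul_right_injective _ (hX0 b ⟨a, ha⟩) e2
    have e4 := congrArg (fun Y => ρ (b : G)⁻¹ * Y) e3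
    simp only [← mul_assoc, h3, one_mul] at e4
    exact e4
  -- a representative of each character
  let rep : (B → k) → B := fun χ => if h : ∃ b, X b = χ then h.choose else 1
  have hrep : ∀ b, X (rep (X b)) = X b := by
    intro b
    have h : ∃ b', X b' = X b := ⟨b, rfl⟩
    simp only [rep]
    rw [dif_pos h]
    exact h.choose_spec
  have hT : (⋃ χ ∈ {χ : B → k | (⨅ i, (Ad i).eigenspace (χ i)) ≠ ⊥},
      Set.range fun ν : k => (ρ (rep χ)).eigenspace ν).Finite :=
    hS.biUnion fun χ _ => finite_eigenspaces _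
  have hBT : ∀ (b' : B) (μ : k), (ρ b').eigenspace μ ∈
      (⋃ χ ∈ {χ : B → k | (⨅ i, (Ad i).eigenspace (χ i)) ≠ ⊥},
        Set.range fun ν : k => (ρ (rep χ)).eigenspace ν) := by
    intro b' μ
    simp only [Set.mem_iUnion]
    refine ⟨X b', hXS b', ?_⟩
    obtain ⟨c, hc⟩ := hker (rep (X b')) b' (hrep b')
    have e1 : ρ b' = c • ρ (rep (X b')) := by
      have : ρ (rep (X b')) * ρ ((rep (X b') : G)⁻¹ * b') = ρ b' := by
        rw [← map_mul]; congr 1; group
      rw [← this, hc]; simp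
    have hc0 : c ≠ 0 := by
      intro h0
      rw [h0, zero_smul] at e1
      exact hρ0 _ e1
    refine ⟨c⁻¹ * μ, ?_⟩
    ext x
    simp only [Module.End.mem_eigenspace_iff]
    rw [e1, LinearMap.smul_apply, mul_smul]
    constructor
    · intro h; rw [h, smul_inv_smul₀ hc0]
    · intro h; rw [← h, inv_smul_smul₀ hc0]
  obtain ⟨μ, hμ⟩ := Module.End.exists_eigenvalue (ρ b)
  obtain ⟨H, hH, hHW⟩ := exists_of_orbit_finite ρ ((ρ b).eigenspace μ) (by
    refine hT.subset ?_
    rintro _ ⟨g, rfl⟩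
    have e : ((ρ b).eigenspace μ).map (ρ g) =
        (ρ ((⟨g * b * g⁻¹, hBn.conj_mem b hb g⟩ : B) : G)).eigenspace μ := by
      ext x
      rw [Module.End.mem_eigenspace_iff]
      constructor
      · rintro ⟨v, hv, rfl⟩
        rw [SetLike.mem_coe, Module.End.mem_eigenspace_iff] at hv
        rw [← rho_mul]
        have : g * b * g⁻¹ * g = g * b := by group
        rw [this, rho_mul, hv, map_smul]
      · intro hx
        refine ⟨ρ g⁻¹ x, ?_, rho_inv ρ g x⟩
        rw [SetLike.mem_coe, Module.End.mem_eigenspace_iff, ← rho_mul]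
        have : b * g⁻¹ = g⁻¹ * (g * b * g⁻¹) := by group
        rw [this, rho_mul, hx, map_smul]
    simp only
    rw [e]
    exact hBT _ _)
  refine ⟨H, _, hH, hHW, hμ, ?_⟩
  intro htop
  apply hbs
  refine ⟨μ, ?_⟩
  ext x
  have : x ∈ (ρ b).eigenspace μ := by rw [htop]; trivial
  rw [Module.End.mem_eigenspace_iff] at this
  simpa using this

theorem lemmaA [IsAlgClosed k] [Group.IsSolvable G] [FiniteDimensional k V] (ρ : G →* End k V)
    (hd : 2 ≤ Module.finrank k V) :
    ∃ (H : Subgroup G) (W : Submodule k V), H.FiniteIndex ∧ (∀ h ∈ H, ∀ w ∈ W, ρ h w ∈ W) ∧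
      W ≠ ⊥ ∧ W ≠ ⊤ := by
  have : Nontrivial V := Module.nontrivial_of_finrank_pos (R := k) (by omega)
  by_cases hex : ∃ A : Subgroup G, A.Normal ∧ (∀ a ∈ A, ∀ b ∈ A, Commute (ρ a) (ρ b)) ∧
      ∃ b ∈ A, ¬ IsSc (ρ b)
  · obtain ⟨A, hA, hc, hns⟩ := hex
    exact case1 ρ A hA hc hns
  have hex' : ∀ A : Subgroup G, A.Normal → (∀ a ∈ A, ∀ b ∈ A, Commute (ρ a) (ρ b)) →
      ∀ a ∈ A, IsSc (ρ a) := by
    intro A hA hc a ha
    by_contra hns
    exact hex ⟨A, hA, hc, a, ha, hns⟩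
  by_cases hall : ∀ g, IsSc (ρ g)
  · obtain ⟨v, hv⟩ := exists_ne (0 : V)
    refine ⟨⊤, Submodule.span k {v}, inferInstance, ?_, ?_, ?_⟩
    · intro g _ w hw
      obtain ⟨c, hc⟩ := hall g
      rw [hc]
      simpa using Submodule.smul_mem _ c hw
    · simpa using hv
    · intro h
      have := finrank_span_singleton (K := k) hv
      rw [h, finrank_top] at this
      omega
  · obtain ⟨n, hn⟩ := Group.IsSolvable.solvable (G := G)
    classical
    have hP : ∃ n, ∀ g ∈ derivedSeries G n, IsSc (ρ g) := by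
      refine ⟨n, ?_⟩
      rw [hn]
      rintro g hg
      rw [Subgroup.mem_bot] at hg
      exact ⟨1, by rw [hg, map_one, one_smul]⟩
    obtain ⟨m, hm, hmin⟩ : ∃ m, (∀ g ∈ derivedSeries G m, IsSc (ρ g)) ∧
        ∀ j < m, ¬ ∀ g ∈ derivedSeries G j, IsSc (ρ g) :=
      ⟨Nat.find hP, Nat.find_spec hP, fun j hj => Nat.find_min hP hj⟩
    have hm0 : m ≠ 0 := by
      intro h0
      apply hall
      intro g
      apply hm
      rw [h0]; simp
    obtain ⟨j, rfl⟩ := Nat.exists_eq_succ_of_ne_zero hm0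
    have h1 := hmin j (Nat.lt_succ_self j)
    push Not at h1
    obtain ⟨b, hb, hbs⟩ := h1
    refine case2 ρ hex' (derivedSeries G j) (derivedSeries_normal G j) ?_ b hb hbs
    intro a ha b hb
    apply hm
    rw [Nat.succ_eq_add_one, derivedSeries_succ]
    exact Subgroup.commutator_mem_commutator ha hb

/-- restriction -/
def repW (ρ : G →* End k V) (H0 : Subgroup G) (W : Submodule k V)
    (hW : ∀ h ∈ H0, ∀ w ∈ W, ρ h w ∈ W) : H0 →* End k W where
  toFun h := (ρ h).restrict (hW h h.2)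
  map_one' := by ext; simp
  map_mul' := by intro a b; ext; simp

/-- quotient -/
def repQ (ρ : G →* End k V) (H0 : Subgroup G) (W : Submodule k V)
    (hW : ∀ h ∈ H0, ∀ w ∈ W, ρ h w ∈ W) : H0 →* End k (V ⧸ W) where
  toFun h := W.mapQ W (ρ h) (hW h h.2)
  map_one' := by ext; simp
  map_mul' := by intro a b; ext; simp

theorem glue (ρ : G →* End k V) (H0 : Subgroup G) (hH0 : H0.FiniteIndex) (W : Submodule k V)
    (hW : ∀ h ∈ H0, ∀ w ∈ W, ρ h w ∈ W) (hW0 : W ≠ ⊥)
    (H1 H2 : Subgroup H0) (h1 : H1.FiniteIndex) (h2 : H2.FiniteIndex)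
    (f1 : FlagC (repW ρ H0 W hW) H1) (f2 : FlagC (repQ ρ H0 W hW) H2) :
    ∃ H : Subgroup G, H.FiniteIndex ∧ FlagC ρ H := by
  obtain ⟨m1, F1, c1, a1, b1, e1, g1⟩ := f1
  obtain ⟨m2, F2, c2, a2, b2, e2, g2⟩ := f2
  have hm1 : m1 ≠ 0 := by
    intro h0
    rw [h0, a1] at b1
    apply hW0
    rw [Submodule.eq_bot_iff]
    intro x hx
    have : (⟨x, hx⟩ : W) ∈ (⊥ : Submodule k W) := by rw [b1]; trivial
    rw [Submodule.mem_bot] at this
    exact congrArg Subtype.val this
  set H : Subgroup G := (H1 ⊓ H2).map H0.subtype with hH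
  have hHle : H ≤ H0 := by
    rw [hH]; exact Subgroup.map_subtype_le _
  have hH1 : ∀ h : H, Subgroup.inclusion hHle h ∈ H1 := by
    rintro ⟨h, ⟨x, hx, rfl⟩⟩
    exact hx.1
  have hH2 : ∀ h : H, Subgroup.inclusion hHle h ∈ H2 := by
    rintro ⟨h, ⟨x, hx, rfl⟩⟩
    exact hx.2
  let φ1 : H →* H1 := (Subgroup.inclusion hHle).codRestrict H1 hH1
  let φ2 : H →* H2 := (Subgroup.inclusion hHle).codRestrict H2 hH2
  refine ⟨H, ?_, m1 + m2, fun i => if i < m1 then (F1 i).map W.subtype else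
    (F2 (i - m1)).comap W.mkQ, fun i => if i < m1 then (c1 i).comp φ1 else (c2 (i - m1)).comp φ2,
    ?_, ?_, ?_, ?_⟩
  · have : (H1 ⊓ H2).FiniteIndex := inferInstance
    constructor
    rw [hH, Subgroup.index_map_subtype]
    exact mul_ne_zero this.index_ne_zero hH0.index_ne_zero
  · simp only
    rw [if_pos (by omega), a1, Submodule.map_bot]
  · simp only
    rw [if_neg (by omega), Nat.add_sub_cancel_left, b2, Submodule.comap_top]
  · intro i
    simp only
    by_cases hi : i < m1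
    · rw [if_pos hi]
      by_cases hi' : i + 1 < m1
      · rw [if_pos hi']
        exact Submodule.map_mono (e1 i)
      · rw [if_neg hi']
        rintro _ ⟨w, _, rfl⟩
        have : i + 1 - m1 = 0 := by omega
        rw [this, a2]
        simp
    · rw [if_neg hi, if_neg (by omega)]
      have : i + 1 - m1 = (i - m1) + 1 := by omega
      rw [this]
      exact Submodule.comap_mono (e2 _)
  · intro i h v hv
    simp only at hv ⊢
    by_cases hi : i < m1
    · rw [if_pos hi, if_pos hi]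
      have hw : ∃ w : W, (w : V) = v ∧ w ∈ F1 (i + 1) := by
        by_cases hi' : i + 1 < m1
        · rw [if_pos hi'] at hv
          obtain ⟨w, hw, rfl⟩ := hv
          exact ⟨w, rfl, hw⟩
        · rw [if_neg hi'] at hv
          have h3 : i + 1 - m1 = 0 := by omega
          rw [h3, a2] at hv
          have h4 : i + 1 = m1 := by omega
          have h5 : v ∈ W := by simpa using hv
          exact ⟨⟨v, h5⟩, rfl, by rw [h4, b1]; trivial⟩
      obtain ⟨w, rfl, hw⟩ := hw
      have := g1 i (φ1 h) w hw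
      exact ⟨_, this, rfl⟩
    · rw [if_neg hi, if_neg hi]
      rw [if_neg (by omega)] at hv
      have h3 : i + 1 - m1 = (i - m1) + 1 := by omega
      rw [h3] at hv
      have := g2 (i - m1) (φ2 h) _ hv
      exact this

theorem malcev_aux (n : ℕ) : ∀ {G : Type v} {V : Type w} [Group G] [Group.IsSolvable G]
    [AddCommGroup V] [Module k V] [FiniteDimensional k V] [IsAlgClosed k] (ρ : G →* Module.End k V),
    Module.finrank k V = n → ∃ H : Subgroup G, H.FiniteIndex ∧ FlagC ρ H := by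
  induction n using Nat.strong_induction_on with
  | _ n ih =>
  intro G V _ _ _ _ _ _ ρ hn
  by_cases h2 : 2 ≤ n
  · obtain ⟨H0, W, hH0, hW, hb, ht⟩ := lemmaA ρ (by omega)
    have d1 : Module.finrank k W < n := by
      rw [← hn]; exact Submodule.finrank_lt ht
    have d2 : Module.finrank k (V ⧸ W) < n := by
      have h3 := Submodule.finrank_quotient_add_finrank W
      have h4 : 0 < Module.finrank k W := by
        rw [Module.finrank_pos_iff]
        exact Submodule.nontrivial_iff_ne_bot.2 hb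
      omega
    obtain ⟨H1, hH1, f1⟩ := ih _ d1 (repW ρ H0 W hW) rfl
    obtain ⟨H2, hH2, f2⟩ := ih _ d2 (repQ ρ H0 W hW) rfl
    exact glue ρ H0 hH0 W hW hb H1 H2 hH1 hH2 f1 f2
  · refine ⟨⊤, inferInstance, ?_⟩
    interval_cases n
    · refine ⟨0, fun _ => ⊥, fun _ => 1, rfl, ?_, fun _ => le_rfl, ?_⟩
      · have : Subsingleton V := Module.finrank_zero_iff.1 hn
        exact Subsingleton.elim _ _
      · intro i h v hv
        rw [Submodule.mem_bot] at hv
        rw [hv]; simp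
    · refine ⟨1, fun i => if i = 0 then ⊥ else ⊤,
        fun i => if i = 0 then (LinearMap.det.comp ρ).comp (Subgroup.subtype ⊤) else 1,
        by simp, by simp, ?_, ?_⟩
      · intro i; simp
      · intro i h v hv
        by_cases hi : i = 0
        · subst hi
          simp only [if_true, Submodule.mem_bot]
          obtain ⟨x, hx, hall⟩ := finrank_eq_one_iff'.1 hn
          obtain ⟨c, hc⟩ := hall (ρ h x)
          have e : ρ h = c • (1 : Module.End k V) := by
            ext y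
            obtain ⟨d, rfl⟩ := hall y
            rw [map_smul, ← hc, LinearMap.smul_apply, Module.End.one_apply, smul_comm]
          have hdet : LinearMap.det (ρ h) = c := by
            rw [e, LinearMap.det_smul, hn]; simp
          simp only [MonoidHom.comp_apply, Subgroup.coe_subtype]
          rw [hdet, e]; simp
        · simp [hi]

end Rep

theorem malcev {k : Type u} {G V : Type*} [Field k] [IsAlgClosed k] [Group G]
    [Group.IsSolvable G] [AddCommGroup V] [Module k V] [FiniteDimensional k V]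
    (ρ : G →* Module.End k V) : ∃ H : Subgroup G, H.FiniteIndex ∧ FlagC ρ H :=
  malcev_aux _ ρ rfl

end Pool.Agent.Helper3.TL
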